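import Mathlib
import Pool.Agent.H41.Shuf.Main

open Filter Topology Pool.Agent.H41.Shuf

namespace Pool.Agent.Results.MP_e74ce2_co.GrowthRate

/-- For every `k ≥ 1` the growth rate `L k = lim |S_k(n)|^(1/n)` of the number of shuffle squares
of semi-length `n` over `k` letters exists, and `4 k - 2 - L k` tends to `0` as `k → ∞`. -/
theorem result : ∃ L : ℕ → ℝ,
    (∀ k : ℕ, 1 ≤ k →
      Tendsto (fun n : ℕ => (numShuffleSquares k n : ℝ) ^ (1 / (n : ℝ))) atTop (𝓝 (L k))) ∧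
    Tendsto (fun k : ℕ => 4 * (k : ℝ) - 2 - L k) atTop (𝓝 0) := by
  obtain ⟨L, h1, h2, _⟩ := main
  exact ⟨L, h1, h2⟩

end Pool.Agent.Results.MP_e74ce2_co.GrowthRate
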